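import Pool.Agent.R270.UL5

/-!
# Weak compactness and fixed points of uniformly Lipschitz affine maps

For every (real or complex) Banach space `X` and every nonempty bounded closed convex `C ⊆ X`:
`C` is weakly compact if and only if all uniformly Lipschitz affine self-maps of all nonempty
bounded closed convex subsets `K` of `C` have fixed points. The new part is the construction of a
fixed-point-free uniformly Lipschitz affine map if `C` is not weakly compact (question Q1).

Idea. If `C` is not weakly compact, it contains a sequence `x 0, x 1, ...` whose differences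
`d k = x (k+1) - x k` form a basic sequence bounded away from zero. Let `K` be the set of the
`x 0 + ∑ H k • d k`, where `H` is nonincreasing with values in `[0, 1]` and limit zero; that is,
`K` is the closed convex hull of the sequence, and `1 - H k` is the mass which a convex combination
gives to `x 0, ..., x k`. Let `A` be strictly increasing with values in `(0, 1)` and limit one. The
map `f` multiplies the distribution function `1 - H` by `A`, its `p`-th iterate multiplies it by
`A ^ p`. As `A ^ p` is increasing and bounded by one, summation by parts gives a Lipschitz constant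
of `f^p` which does not depend on `p`. A fixed point would satisfy `A (1 - H) = 1 - H`, so `H = 1`.
-/

set_option autoImplicit false

open Set Filter Topology

namespace Pool.Agent.Results.MP_f650bf_an.UniformlyLipschitzAffine

/-- `K` is a member of `𝓑(M)`: a nonempty, bounded, closed, convex subset of `M`. -/
structure InB {X : Type*} [NormedAddCommGroup X] [NormedSpace ℝ X] (M K : Set X) : Prop where
  subset : K ⊆ M
  nonempty : K.Nonempty
  bounded : Bornology.IsBounded K
  closed : IsClosed K
  convex : Convex ℝ K

/-- `f` maps `K` into `K` and is affine on `K`. -/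
def IsAffineSelfMap {X : Type*} [NormedAddCommGroup X] [NormedSpace ℝ X] (K : Set X) (f : X → X) :
    Prop :=
  (∀ x ∈ K, f x ∈ K) ∧ ∀ x ∈ K, ∀ y ∈ K, ∀ t ∈ Icc (0 : ℝ) 1,
    f (t • x + (1 - t) • y) = t • f x + (1 - t) • f y

/-- All iterates of `f` satisfy on `K` a Lipschitz condition with the same constant. -/
def IsUniformlyLipschitz {X : Type*} [NormedAddCommGroup X] (K : Set X) (f : X → X) : Prop :=
  ∃ L : ℝ, 0 < L ∧ ∀ x ∈ K, ∀ y ∈ K, ∀ p : ℕ, ‖f^[p] x - f^[p] y‖ ≤ L * ‖x - y‖

theorem weak_iff {𝕜 X : Type*} [RCLike 𝕜] [NormedAddCommGroup X] [NormedSpace ℝ X]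
    [NormedSpace 𝕜 X] [IsScalarTower ℝ 𝕜 X] (C : Set X) :
    IsCompact (toWeakSpace 𝕜 X '' C) ↔ IsCompact (toWeakSpace ℝ X '' C) := by
  have hsc : ContinuousConstSMul 𝕜 X := inferInstance
  constructor
  · intro h
    have hc : Continuous (fun z : WeakSpace 𝕜 X => toWeakSpace ℝ X ((toWeakSpace 𝕜 X).symm z)) := by
      refine WeakBilin.continuous_of_continuous_eval _ fun ψ => ?_
      have h1 : Continuous fun z : WeakSpace 𝕜 X =>
          (StrongDual.extendRCLike (𝕜 := 𝕜) ψ) ((toWeakSpace 𝕜 X).symm z) :=
        WeakBilin.eval_continuous (topDualPairing 𝕜 X).flip (StrongDual.extendRCLike (𝕜 := 𝕜) ψ)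
      have h2 := RCLike.continuous_re.comp h1
      refine h2.congr fun z => ?_
      exact StrongDual.re_extendRCLike_apply (𝕜 := 𝕜) ψ ((toWeakSpace 𝕜 X).symm z)
    have h3 := h.image hc
    rw [image_image] at h3
    simpa using h3
  · intro h
    have hc : Continuous (fun z : WeakSpace ℝ X => toWeakSpace 𝕜 X ((toWeakSpace ℝ X).symm z)) := by
      refine WeakBilin.continuous_of_continuous_eval _ fun φ => ?_
      have h1 : Continuous fun z : WeakSpace ℝ X =>
          (RCLike.reCLM.comp (φ.restrictScalars ℝ) : StrongDual ℝ X) ((toWeakSpace ℝ X).symm z) :=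
        WeakBilin.eval_continuous (topDualPairing ℝ X).flip
          (RCLike.reCLM.comp (φ.restrictScalars ℝ) : StrongDual ℝ X)
      have h2 : Continuous fun z : WeakSpace ℝ X =>
          (RCLike.imCLM.comp (φ.restrictScalars ℝ) : StrongDual ℝ X) ((toWeakSpace ℝ X).symm z) :=
        WeakBilin.eval_continuous (topDualPairing ℝ X).flip
          (RCLike.imCLM.comp (φ.restrictScalars ℝ) : StrongDual ℝ X)
      have h3 := (RCLike.continuous_ofReal (K := 𝕜)).comp h1
      have h4 := ((RCLike.continuous_ofReal (K := 𝕜)).comp h2).mul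
        (continuous_const (y := (RCLike.I : 𝕜)))
      refine (h3.add h4).congr fun z => ?_
      exact RCLike.re_add_im (φ ((toWeakSpace ℝ X).symm z))
    have h3 := h.image hc
    rw [image_image] at h3
    simpa using h3

/-- **Main theorem.** For every Banach space `X` over `ℝ` or `ℂ` and every nonempty bounded closed
convex `C ⊆ X`:
(1) if `C` is not weakly compact, then some nonempty bounded closed convex `K ⊆ C` has a uniformly
Lipschitz affine self-map without fixed points;
(2) `C` is weakly compact if and only if, for every nonempty bounded closed convex `K ⊆ C`, every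
uniformly Lipschitz affine self-map of `K` has a fixed point. -/
theorem result {𝕜 X : Type*} [RCLike 𝕜] [NormedAddCommGroup X] [NormedSpace ℝ X]
    [NormedSpace 𝕜 X] [IsScalarTower ℝ 𝕜 X] [CompleteSpace X] (C : Set X) (hC : InB univ C) :
    (¬ IsCompact (toWeakSpace 𝕜 X '' C) →
      ∃ K : Set X, InB C K ∧ ∃ f : X → X, IsAffineSelfMap K f ∧ IsUniformlyLipschitz K f ∧
        ∀ x ∈ K, f x ≠ x) ∧
    (IsCompact (toWeakSpace 𝕜 X '' C) ↔
      ∀ K : Set X, InB C K → ∀ f : X → X, IsAffineSelfMap K f → IsUniformlyLipschitz K f →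
        ∃ x ∈ K, f x = x) := by
  rw [weak_iff]
  have h1 : ¬ IsCompact (toWeakSpace ℝ X '' C) →
      ∃ K : Set X, InB C K ∧ ∃ f : X → X, IsAffineSelfMap K f ∧ IsUniformlyLipschitz K f ∧
        ∀ x ∈ K, f x ≠ x := by
    intro hnw
    obtain ⟨K, hKC, hne, hcl, hconv, f, hf1, hf2, hf3, hf4⟩ :=
      Pool.Agent.R270.UL.exists_fixed_point_free hC.bounded hC.closed hC.convex hnw
    exact ⟨K, ⟨hKC, hne, hC.bounded.subset hKC, hcl, hconv⟩, f, ⟨hf1, hf2⟩, hf3, hf4⟩
  refine ⟨h1, fun hw K hK f hf hL => ?_, fun h => ?_⟩
  · exact Pool.Agent.R270.UL.exists_fixed_point hw hK.subset hK.nonempty hK.bounded hK.closed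
      hK.convex f hf.1 hf.2 hL
  · by_contra hnw
    obtain ⟨K, hK, f, hf, hL, hno⟩ := h1 hnw
    obtain ⟨x, hx, hfx⟩ := h K hK f hf hL
    exact hno x hx hfx

end Pool.Agent.Results.MP_f650bf_an.UniformlyLipschitzAffine
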